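import Pool.Agent.NA.Stmts

/-! NA, row TRA: a regular tree of slopes gives a Lipschitz curve. -/

set_option autoImplicit false

open Finset Filter Topology

noncomputable section

namespace Pool.Agent.NA.H28

open Pool.Agent.NA

/-- the clamp to `[0, 1]` -/
def c01 (s : ℝ) : ℝ := max 0 (min 1 s)

theorem c01_mono : Monotone c01 := fun a b h => by
  unfold c01
  exact max_le_max le_rfl (min_le_min le_rfl h)

theorem c01_of_nonpos {s : ℝ} (h : s ≤ 0) : c01 s = 0 := by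
  unfold c01
  rw [min_eq_right (by linarith : s ≤ 1), max_eq_left h]

theorem c01_of_one_le {s : ℝ} (h : 1 ≤ s) : c01 s = 1 := by
  unfold c01
  rw [min_eq_left h, max_eq_right zero_le_one]

theorem sum_c01 (n : ℕ) (u : ℝ) : ∑ i ∈ range n, c01 (u - i) = max 0 (min (n : ℝ) u) := by
  induction n with
  | zero =>
    rw [sum_range_zero, Nat.cast_zero]
    exact (max_eq_left (min_le_left _ _)).symm
  | succ n ih =>
    have hn : (0 : ℝ) ≤ n := n.cast_nonneg
    rw [sum_range_succ, ih, Nat.cast_succ]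
    rcases le_total u n with h | h
    · rw [c01_of_nonpos (by linarith : u - n ≤ 0), min_eq_right h,
        min_eq_right (by linarith : u ≤ n + 1), add_zero]
    · rw [min_eq_left h, max_eq_right hn]
      rcases le_total u (n + 1) with h' | h'
      · unfold c01
        rw [min_eq_right h', min_eq_right (by linarith : u - n ≤ 1),
          max_eq_right (by linarith : 0 ≤ u - n), max_eq_right (by linarith : 0 ≤ u)]
        ring
      · rw [min_eq_left h', c01_of_one_le (by linarith : 1 ≤ u - n),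
          max_eq_right (by linarith : (0 : ℝ) ≤ n + 1)]

theorem sum_abs_of_le (n : ℕ) (u v : ℝ) (h : v ≤ u) :
    ∑ i ∈ range n, |c01 (u - i) - c01 (v - i)| ≤ |u - v| := by
  have h1 : ∑ i ∈ range n, |c01 (u - i) - c01 (v - i)| =
      max 0 (min (n : ℝ) u) - max 0 (min (n : ℝ) v) := by
    rw [← sum_c01, ← sum_c01, ← sum_sub_distrib]
    exact sum_congr rfl fun i _ => abs_of_nonneg (sub_nonneg.2 (c01_mono (by linarith)))
  rw [h1]
  refine (le_abs_self _).trans ((abs_max_sub_max_le_max _ _ _ _).trans ?_)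
  rw [sub_self, abs_zero, max_eq_right (abs_nonneg _)]
  refine (abs_min_sub_min_le_max _ _ _ _).trans ?_
  rw [sub_self, abs_zero, max_eq_right (abs_nonneg _)]

theorem sum_abs (n : ℕ) (u v : ℝ) :
    ∑ i ∈ range n, |c01 (u - i) - c01 (v - i)| ≤ |u - v| := by
  rcases le_total v u with h | h
  · exact sum_abs_of_le n u v h
  · rw [abs_sub_comm u v]
    refine le_trans (le_of_eq ?_) (sum_abs_of_le n v u h)
    exact sum_congr rfl fun i _ => abs_sub_comm _ _

section

variable {X : Type} [NormedAddCommGroup X] [NormedSpace ℝ X]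

/-- the `k`-th polygon -/
def G (L : ℕ → ℕ) (y : ℕ → ℕ → X) (k : ℕ) (t : ℝ) : X :=
  ((L k : ℝ))⁻¹ • ∑ i ∈ range (L k), c01 (t * L k - i) • y k i

theorem G_lip (L : ℕ → ℕ) (y : ℕ → ℕ → X) (hL : ∀ k, 0 < L k)
    (hy : ∀ k i, i < L k → ‖y k i‖ ≤ 1) (k : ℕ) (s t : ℝ) :
    ‖G L y k s - G L y k t‖ ≤ |s - t| := by
  have hL' : (0 : ℝ) < L k := Nat.cast_pos.2 (hL k)
  unfold G
  rw [← smul_sub, ← sum_sub_distrib, norm_smul, norm_inv, Real.norm_of_nonneg hL'.le]
  have h1 : ‖∑ i ∈ range (L k), (c01 (s * L k - i) • y k i - c01 (t * L k - i) • y k i)‖ ≤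
      |s * L k - t * L k| := by
    refine (norm_sum_le _ _).trans ((sum_le_sum fun i hi => ?_).trans
      (sum_abs (L k) (s * L k) (t * L k)))
    rw [← sub_smul, norm_smul, Real.norm_eq_abs]
    exact mul_le_of_le_one_right (abs_nonneg _) (hy k i (mem_range.1 hi))
  calc (L k : ℝ)⁻¹ * ‖∑ i ∈ range (L k), (c01 (s * L k - i) • y k i - c01 (t * L k - i) • y k i)‖
      ≤ (L k : ℝ)⁻¹ * |s * L k - t * L k| := mul_le_mul_of_nonneg_left h1 (inv_nonneg.2 hL'.le)
    _ = |s - t| := by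
        rw [← sub_mul, abs_mul, abs_of_pos hL']
        field_simp

theorem G_grid (L : ℕ → ℕ) (y : ℕ → ℕ → X) (hL : ∀ k, 0 < L k) (k j : ℕ) (hj : j ≤ L k) :
    G L y k ((j : ℝ) / L k) = ((L k : ℝ))⁻¹ • ∑ i ∈ range j, y k i := by
  have hL' : (0 : ℝ) < L k := Nat.cast_pos.2 (hL k)
  unfold G
  congr 1
  rw [div_mul_cancel₀ _ hL'.ne', ← sum_subset (range_mono hj)]
  · refine sum_congr rfl fun i hi => ?_
    have h : ((i : ℝ) + 1) ≤ j := by exact_mod_cast mem_range.1 hi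
    rw [c01_of_one_le (by linarith), one_smul]
  · intro i _ hi
    have h : (j : ℝ) ≤ i := by
      rw [mem_range, not_lt] at hi
      exact_mod_cast hi
    rw [c01_of_nonpos (by linarith), zero_smul]

omit [NormedSpace ℝ X] in
theorem sum_blocks (f : ℕ → X) (M j : ℕ) :
    ∑ i ∈ range (j * M), f i = ∑ i ∈ range j, ∑ m ∈ range M, f (i * M + m) := by
  induction j with
  | zero => rw [Nat.zero_mul, sum_range_zero, sum_range_zero]
  | succ j ih => rw [Nat.succ_mul, sum_range_add, ih, sum_range_succ]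

theorem G_succ (L M : ℕ → ℕ) (y : ℕ → ℕ → X) (hL : ∀ k, 0 < L k)
    (hLM : ∀ k, L (k + 1) = L k * M k) (hM : ∀ k, 2 ≤ M k)
    (hs : ∀ k i, i < L k → ∑ m ∈ range (M k), y (k + 1) (i * M k + m) = (M k : ℝ) • y k i)
    (k j : ℕ) (hj : j ≤ L k) :
    G L y (k + 1) ((j : ℝ) / L k) = G L y k ((j : ℝ) / L k) := by
  have hL' : (0 : ℝ) < L k := Nat.cast_pos.2 (hL k)
  have hM' : (0 : ℝ) < M k := Nat.cast_pos.2 (lt_of_lt_of_le two_pos (hM k))
  have h1 : (j : ℝ) / L k = ((j * M k : ℕ) : ℝ) / L (k + 1) := by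
    rw [hLM, Nat.cast_mul, Nat.cast_mul, mul_div_mul_right _ _ hM'.ne']
  have h2 : j * M k ≤ L (k + 1) := by
    rw [hLM]
    exact Nat.mul_le_mul_right _ hj
  rw [G_grid L y hL k j hj, h1, G_grid L y hL (k + 1) (j * M k) h2, sum_blocks,
    sum_congr rfl fun i hi => hs k i (lt_of_lt_of_le (mem_range.1 hi) hj), ← smul_sum, smul_smul,
    hLM, Nat.cast_mul, mul_inv, mul_assoc, inv_mul_cancel₀ hM'.ne', mul_one]

theorem G_add (L M : ℕ → ℕ) (y : ℕ → ℕ → X) (hL : ∀ k, 0 < L k)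
    (hLM : ∀ k, L (k + 1) = L k * M k) (hM : ∀ k, 2 ≤ M k)
    (hs : ∀ k i, i < L k → ∑ m ∈ range (M k), y (k + 1) (i * M k + m) = (M k : ℝ) • y k i)
    (n : ℕ) : ∀ k j : ℕ, j ≤ L k → G L y (k + n) ((j : ℝ) / L k) = G L y k ((j : ℝ) / L k) := by
  induction n with
  | zero =>
    intro k j _
    rfl
  | succ n ih =>
    intro k j hj
    have hM' : (0 : ℝ) < M k := Nat.cast_pos.2 (lt_of_lt_of_le two_pos (hM k))
    have h1 : (j : ℝ) / L k = ((j * M k : ℕ) : ℝ) / L (k + 1) := by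
      rw [hLM, Nat.cast_mul, Nat.cast_mul, mul_div_mul_right _ _ hM'.ne']
    have h2 : j * M k ≤ L (k + 1) := by
      rw [hLM]
      exact Nat.mul_le_mul_right _ hj
    have h3 : k + (n + 1) = k + 1 + n := by omega
    rw [h3]
    have h4 := ih (k + 1) (j * M k) h2
    rw [← h1] at h4
    rw [h4]
    exact G_succ L M y hL hLM hM hs k j hj

theorem G_dist (L M : ℕ → ℕ) (y : ℕ → ℕ → X) (hL : ∀ k, 0 < L k)
    (hLM : ∀ k, L (k + 1) = L k * M k) (hM : ∀ k, 2 ≤ M k)
    (hy : ∀ k i, i < L k → ‖y k i‖ ≤ 1)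
    (hs : ∀ k i, i < L k → ∑ m ∈ range (M k), y (k + 1) (i * M k + m) = (M k : ℝ) • y k i)
    (k : ℕ) (t : ℝ) (ht0 : 0 ≤ t) (ht1 : t ≤ 1) :
    ‖G L y k t - G L y (k + 1) t‖ ≤ 2 / L k := by
  have hL' : (0 : ℝ) < L k := Nat.cast_pos.2 (hL k)
  obtain ⟨j, hj⟩ : ∃ j : ℕ, j = ⌊t * L k⌋₊ := ⟨_, rfl⟩
  have h0 : 0 ≤ t * L k := mul_nonneg ht0 hL'.le
  have hj1 : (j : ℝ) ≤ t * L k := by
    rw [hj]
    exact Nat.floor_le h0
  have hj2 : t * L k < j + 1 := by
    rw [hj]
    exact Nat.lt_floor_add_one _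
  have hjL : j ≤ L k := by
    have h : (j : ℝ) ≤ L k := hj1.trans (mul_le_of_le_one_left hL'.le ht1)
    exact_mod_cast h
  have h1 : |t - (j : ℝ) / L k| ≤ 1 / L k := by
    have h : t - (j : ℝ) / L k = (t * L k - j) / L k := by
      field_simp
    rw [h, abs_div, abs_of_pos hL', abs_of_nonneg (by linarith)]
    exact div_le_div_of_nonneg_right (by linarith) hL'.le
  have h2 := G_lip L y hL hy k t ((j : ℝ) / L k)
  have h3 := G_lip L y hL hy (k + 1) ((j : ℝ) / L k) t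
  rw [abs_sub_comm] at h3
  rw [G_succ L M y hL hLM hM hs k j hjL] at h3
  calc ‖G L y k t - G L y (k + 1) t‖ ≤ ‖G L y k t - G L y k ((j : ℝ) / L k)‖ +
        ‖G L y k ((j : ℝ) / L k) - G L y (k + 1) t‖ := norm_sub_le_norm_sub_add_norm_sub _ _ _
    _ ≤ 1 / L k + 1 / L k := add_le_add (h2.trans h1) (h3.trans h1)
    _ = 2 / L k := by ring

end

theorem tra : TraStmt := by
  intro X _ _ _ Z M L y hZ hL0 hLM hM hy hs
  have hpow : ∀ k, 2 ^ k ≤ L k := by
    intro k
    induction k with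
    | zero => rw [hL0, pow_zero]
    | succ k ih =>
      rw [hLM, pow_succ]
      exact Nat.mul_le_mul ih (hM k)
  have hL : ∀ k, 0 < L k := fun k => lt_of_lt_of_le (by positivity) (hpow k)
  have hy1 : ∀ k i, i < L k → ‖y k i‖ ≤ 1 := fun k i hi => (hy k i hi).2
  have hc : ∀ t : ℝ, 0 ≤ c01 t ∧ c01 t ≤ 1 := fun t =>
    ⟨le_max_left _ _, max_le zero_le_one (min_le_left _ _)⟩
  have hcl : ∀ s t : ℝ, |c01 s - c01 t| ≤ |s - t| := by
    intro s t
    unfold c01
    refine (abs_max_sub_max_le_max _ _ _ _).trans ?_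
    rw [sub_self, abs_zero, max_eq_right (abs_nonneg _)]
    refine (abs_min_sub_min_le_max _ _ _ _).trans ?_
    rw [sub_self, abs_zero, max_eq_right (abs_nonneg _)]
  have hcau : ∀ t : ℝ, ∃ x, Tendsto (fun k => G L y k (c01 t)) atTop (𝓝 x) := by
    intro t
    refine cauchySeq_tendsto_of_complete (cauchySeq_of_le_geometric_two (C := 4) fun k => ?_)
    rw [dist_eq_norm]
    refine (G_dist L M y hL hLM hM hy1 hs k (c01 t) (hc t).1 (hc t).2).trans ?_
    have h1 : (2 : ℝ) ^ k ≤ L k := by exact_mod_cast hpow k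
    calc (2 : ℝ) / L k ≤ 2 / 2 ^ k := div_le_div_of_nonneg_left zero_le_two (by positivity) h1
      _ = 4 / 2 / 2 ^ k := by norm_num
  choose g hg using hcau
  have hgrid : ∀ k j : ℕ, j ≤ L k → g ((j : ℝ) / L k) = (L k : ℝ)⁻¹ • ∑ i ∈ range j, y k i := by
    intro k j hj
    have hL' : (0 : ℝ) < L k := Nat.cast_pos.2 (hL k)
    have h0 : 0 ≤ (j : ℝ) / L k := div_nonneg j.cast_nonneg hL'.le
    have h1 : (j : ℝ) / L k ≤ 1 := by
      rw [div_le_one hL']
      exact_mod_cast hj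
    have h2 : c01 ((j : ℝ) / L k) = (j : ℝ) / L k := by
      unfold c01
      rw [min_eq_right h1, max_eq_right h0]
    have h3 := hg ((j : ℝ) / L k)
    rw [h2] at h3
    refine tendsto_nhds_unique h3 ?_
    refine tendsto_const_nhds.congr' ?_
    filter_upwards [eventually_ge_atTop k] with n hn
    obtain ⟨m, rfl⟩ := Nat.exists_eq_add_of_le hn
    rw [G_add L M y hL hLM hM hs m k j hj, G_grid L y hL k j hj]
  refine ⟨g, fun t => ?_, ?_, ?_⟩
  · refine hZ.mem_of_tendsto (hg t) (Eventually.of_forall fun k => ?_)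
    exact Z.smul_mem _ (Z.sum_mem fun i hi => Z.smul_mem _ (hy k i (mem_range.1 hi)).1)
  · refine LipschitzWith.of_dist_le_mul fun s t => ?_
    rw [NNReal.coe_one, one_mul]
    refine le_of_tendsto ((hg s).dist (hg t)) (Eventually.of_forall fun k => ?_)
    rw [dist_eq_norm, Real.dist_eq]
    exact (G_lip L y hL hy1 k _ _).trans (hcl s t)
  · intro k i hi
    have hL' : (0 : ℝ) < L k := Nat.cast_pos.2 (hL k)
    have h1 := hgrid k (i + 1) hi
    have h2 := hgrid k i hi.le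
    rw [Nat.cast_succ] at h1
    rw [h1, h2, ← smul_sub, sum_range_succ, add_sub_cancel_left, smul_smul,
      mul_inv_cancel₀ hL'.ne', one_smul]

end Pool.Agent.NA.H28
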